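import Pool.Agent.H802Z.Main

/-!
# The number `d(X)` of Roitman is never one: a dichotomy for zero-cycles on surfaces

Let `X` be a complete nonsingular surface over an algebraically closed field `k` (for instance
`k = ℂ` and `p_g = 0`), let `γ_n : S^n(X) → B(X)` be the map to the Chow group of zero-cycles, and
`d_n = 2 n - min (dim F)`, where `F` runs through the fibres of `γ_n`. By a theorem of Roitman
`d_n = n d(X) + j(X)` for large `n`.

**Theorem.** If `d_n < 2 n` for one `n`, then the numbers `d_n` are bounded, that is, `B(X)` is
finite-dimensional. So `d(X) = 1` is impossible, and if `B(X)` is not finite-dimensional then
`d_n = 2 n` for all `n`, i.e. `d(X) = 2` and `j(X) = 0`, exactly as in the theorem of Mumford for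
`p_g > 0`. In particular the conjecture of Bloch for a surface `X` with `p_g = 0` is equivalent to
the following statement: for some `n`, every effective zero-cycle of degree `n` on `X` moves in its
rational equivalence class, in a family of positive dimension. (A priori the dimensions of these
families have to grow like `2 n`.)

More precisely, let `C` be a nonsingular ample curve of genus `g` on `X` (or any nonsingular complete
curve with affine complement `U`), with the inclusion `π`.

(A) Suppose that, for some `n`, all sums of `n + 1` points of the affine surface `U` move, perhaps
only modulo rational equivalence and the zero-cycles of degree zero supported on `C` (`MovesMod`,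
`withCurve`). Then every effective zero-cycle on `X`, of any degree `N`, is rationally equivalent to
the sum of `g` points of `C`, of `n` points of `X` and of a multiple of a fixed point `p`. So
`d_N ≤ g + 2 n` for all `N`, and all zero-cycles of degree zero are differences of effective cycles of
degree `g + n` (`FiniteDimensional`, the definition of Mumford). The same is true modulo any group
`R` of zero-cycles which contains the cycles rationally equivalent to zero, for instance the kernel
of the action of a correspondence from `X` to another surface, or of a projector given by a
finite group of automorphisms. So in the more general conjecture of Bloch for correspondences the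
image of the group of zero-cycles is also either finite-dimensional, or the general fibres of the
maps from `S^n(X)` to it are discrete for all `n`.

(B) Conversely, if all zero-cycles come from `C` (`CarriesZeroCycles`; by Roitman's theorem this is
the case if `B(X)` is finite-dimensional, as the Jacobian of `C` is mapped onto the Albanese variety),
then every effective zero-cycle of degree `g + 1` moves. So the conjecture of Bloch for `X` is
equivalent to the statement that the effective zero-cycles of degree `g + 1` move.

Here `Moves x` says that there are a complete variety `T` and morphisms `f_i : T → X`, not all of
them constant, such that `∑ f_i(t)` is rationally equivalent to `∑ x_i` for all points `t` of `T`. Since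
the fibres of `γ_n` are countable unions of closed subsets this means that the fibre through `∑ x_i` has
positive dimension (take for `T` a component of positive dimension of its preimage in the
product `X^n`, and the projections). So `d_n < 2 n` if and only if all `x` in `X^n` move.

The definitions are the actual ones: zero-cycles on schemes over `k`, and rational equivalence
generated by the push-forwards of the divisors of rational functions on complete nonsingular curves
`T → X`. Two classical facts on the curve `C` are assumed: every divisor on `C` is linearly equivalent
to an effective divisor of degree `g` plus a multiple of `p`, and the effective divisors of degree `g + 1`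
move (Riemann-Roch); the ampleness of `C` is used only through the fact that `X \ C` is affine. The
dimension of `X` plays no role: (A) also holds, for example, for varieties of any dimension with
an ample divisor `C` with finite-dimensional Chow group of zero-cycles.

## Proof

(A) A morphism `f : T → X` from a complete variety whose image is contained in the affine open
subset `U` is constant, because all functions on `T` are constant. So if the sum of `n + 1` points
of `U` moves in a family `∑ f_i(t)`, with `f_i` not constant, then there is a point `t` with
`f_i(t) ∈ C`, and the given cycle is equivalent to the sum of a cycle on `C` and of `n` points of
`X`. The same is trivially true if one of the points lies on `C`. Hence in an effective cycle of degree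
`N` one can replace any `n + 1` points by a cycle on `C` and `n` points, again and again, until only
`n` points are left which do not lie on `C`. Finally the part on `C` is reduced to `g` points by the
Jacobi inversion. (B) The cycle is equivalent to a divisor of degree `g + 1` on `C`, and this moves.
-/

open CategoryTheory AlgebraicGeometry

universe u

namespace Pool.Agent.Results.MP_7ebcb6_ag.Dichotomy

open Pool.Agent.H802Z

/-- Let `π : C ⟶ X` be a curve of genus `g` with affine complement `U` in the surface `X`. (A) If for
some `n` all effective zero-cycles of degree `n + 1` supported in `U` move (modulo zero-cycles of
degree zero on `C`), then the Chow group of zero-cycles of `X` is finite-dimensional; more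
precisely every effective zero-cycle is rationally equivalent to the sum of `g` points of `C`, `n`
points of `X` and a multiple of `p`. The same holds modulo every group `R` which contains the
cycles rationally equivalent to zero. (B) If all zero-cycles come from `C`, then all effective
zero-cycles of degree `g + 1` move. -/
theorem result {k : Type u} [Field k] [IsAlgClosed k] {C X : Over (Spec (.of k))} (π : C ⟶ X)
    [Mono π] (U : X.left.Opens) (hU : AffineComplement π U) (g : ℕ) (p : Pt C)
    (hC : JacobiInversion C g p) (hRR : ∀ c : Fin (g + 1) → Pt C, Moves c) :
    (∀ R : AddSubgroup (Cyc X), Rat X ≤ R → ∀ n : ℕ,
      (∀ x : Fin (n + 1) → Pt X, (∀ i, pt (x i) ∈ U) → MovesMod (withCurve π R) x) →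
      FiniteDimensional R ∧
      ∀ (N : ℕ) (x : Fin N → Pt X), ∃ (c : Fin g → Pt C) (y : Fin n → Pt X),
        cyc x - (push π (cyc c) + cyc y + ((N : ℤ) - g - n) • Finsupp.single (p ≫ π) 1) ∈ R) ∧
    (CarriesZeroCycles π → ∀ x : Fin (g + 1) → Pt X, Moves x) :=
  ⟨fun _ hR _ h => ⟨finiteDimensional hR hU hC h, bound hR hU hC h⟩, moves_of_carries hC hRR⟩

end Pool.Agent.Results.MP_7ebcb6_ag.Dichotomy
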