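import Pool.Agent.Helper70_bl.Ev6
import Pool.Agent.Helper70_bl.BlDefs

/-!
# MP_7ebcb6_ag: symmetric motives of trace `r`, linear relations between permutations
-/

open CategoryTheory AlgebraicGeometry

universe u v w

namespace Pool.Agent.Results.MP_7ebcb6_ag.SelfDualMotives

open Pool.Agent.H914 Pool.Agent.H914.VarClass Pool.Agent.H914.VarClass.Obj Pool.Agent.W492.BB
  Pool.Agent.W550.Corr Pool.Agent.TH133 Pool.Agent.TH829.Prime Pool.Agent.TH829.Kim
  Pool.Agent.Helper70_bl

theorem result {k : Type u} [Field k] {𝒱 : VarClass k} (C : TheoryData.{u, v, 0} 𝒱 ℚ)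
    [IsChowProj C] (X : 𝒱.Obj) :
    -- (1) symmetric projectors `p` of trace `r`
    (∀ (p : C.A (X.prod X)) (r : ℕ), C.Deg X.dim p → C.comp p p = p →
      value C p (snd X X) (fst X X) = p → HasDegree C (value C p (𝟙 X) (𝟙 X)) r →
      -- modulo an adequate relation `I`
      (∀ I : Family C, IsAdequate C I → List.TFAE [
        Relation C p I (r + 1) (fun σ => ((Equiv.Perm.sign σ : ℤ) : ℚ)),
        ∃ n, Relation C p I n (fun σ => ((Equiv.Perm.sign σ : ℤ) : ℚ)),
        ∃ n ≤ 3 * r + 8, Dependent C p I n,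
        ∃ μ : YoungDiagram, (r + 2, 2) ∉ μ ∧ SchurZero C p I μ,
        Exceptional C p I r]) ∧
      -- up to rational equivalence
      List.TFAE [
        Relation C p (ratFam C) (r + 1) (fun σ => ((Equiv.Perm.sign σ : ℤ) : ℚ)),
        Exceptional C p (ratFam C) r,
        ∃ I : Family C, IsAdequate C I ∧ (∀ Z i, ∀ z ∈ I Z i, SmashNilpotent C z) ∧
          Exceptional C p I r,
        ∀ P : Family C, IsPrime C P → Exceptional C p P r] ∧
      -- trace `0`
      (r = 0 → ∀ I : Family C, IsAdequate C I → (Exceptional C p I r ↔ p ∈ I (X.prod X) X.dim))) ∧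
    -- (2) varieties with a dual system
    ((∀ X : 𝒱.Obj, (1 : C.A X) ≠ 0) → ∀ (b : ℕ) (a a' : Fin b → C.A X), DualSystem C X b a a' →
      (∀ I : Family C, IsAdequate C I → List.TFAE [
        rest C a a' ∈ I (X.prod X) X.dim,
        Relation C (dg C X) I (b + 1) (fun σ => ((Equiv.Perm.sign σ : ℤ) : ℚ)),
        ∃ n ≤ 3 * b + 8, Dependent C (dg C X) I n,
        ∃ μ : YoungDiagram, (b + 2, 2) ∉ μ ∧ SchurZero C (dg C X) I μ,
        Exceptional C (dg C X) I b,
        ∃ n ≤ 8, Dependent C (rest C a a') I n,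
        ∃ μ : YoungDiagram, (2, 2) ∉ μ ∧ SchurZero C (rest C a a') I μ,
        Exceptional C (rest C a a') I 0]) ∧
      List.TFAE [
        dg C X = ∑ i, C.ext (a i) (a' i),
        Exceptional C (dg C X) (ratFam C) b,
        ∃ I : Family C, IsAdequate C I ∧
          (∀ z ∈ I (X.prod X) X.dim, SmashNilpotent C z) ∧ Exceptional C (dg C X) I b,
        ∀ P : Family C, IsPrime C P → Exceptional C (dg C X) P b] ∧
      (dg C X = ∑ i, C.ext (a i) (a' i) →
        ∀ x : C.A X, C.Deg X.dim x → HasDegree C x 0 → x = 0)) :=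
  ⟨fun p r hpd hp hs hr => selfdual C X p r hpd hp hs hr,
    fun hne b a a' hD => main C hne X b a a' hD⟩

end Pool.Agent.Results.MP_7ebcb6_ag.SelfDualMotives
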